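import Pool.Agent.W810.SYN.Stm

/-!
# The integrals of the kernel part tend to zero
-/

set_option autoImplicit false

namespace Pool.Agent.W212.SYN.UN

open MeasureTheory AddCircle Filter Topology Pool.Agent.Results.MP_535799_an.NonSidon
open Pool.Agent.W810.SYN

noncomputable section

lemma norm_coeff_le (e : L1) (n : ℤ) : ‖coeff e n‖ ≤ ‖e‖ := by
  unfold coeff fourierCoeff
  rw [L1.norm_eq_integral_norm]
  refine (norm_integral_le_integral_norm _).trans (le_of_eq ?_)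
  congr 1
  ext x
  rw [norm_smul, fourier_apply, Circle.norm_coe, one_mul]

lemma span_bdd (p : L1)
    (hp : p ∈ Submodule.span ℂ (Set.range (fun n : ℤ => (fourierLp 1 n : L1)))) :
    ∃ P : ℝ, ∀ F : Finset ℤ, ∑ n ∈ F, ‖coeff p n‖ ^ 2 ≤ P := by
  induction hp using Submodule.span_induction with
  | mem x hx =>
    obtain ⟨m, rfl⟩ := hx
    refine ⟨1, fun F => ?_⟩
    have h1 : ∀ n ∈ F, ‖coeff (fourierLp 1 m : L1) n‖ ^ 2 = if n = m then (1 : ℝ) else 0 := by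
      intro n _
      rw [coeff_fourierLp]
      split_ifs <;> simp
    show ∑ n ∈ F, ‖coeff (fourierLp 1 m : L1) n‖ ^ 2 ≤ 1
    rw [Finset.sum_congr rfl h1, Finset.sum_ite_eq']
    split_ifs <;> norm_num
  | zero => exact ⟨0, fun F => by simp [coeff_zero]⟩
  | add x y _ _ hx hy =>
    obtain ⟨P, hP⟩ := hx
    obtain ⟨Q, hQ⟩ := hy
    refine ⟨2 * P + 2 * Q, fun F => ?_⟩
    calc ∑ n ∈ F, ‖coeff (x + y) n‖ ^ 2
        ≤ ∑ n ∈ F, (2 * ‖coeff x n‖ ^ 2 + 2 * ‖coeff y n‖ ^ 2) := by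
          refine Finset.sum_le_sum (fun n _ => ?_)
          rw [coeff_add]
          have h1 := norm_add_le (coeff x n) (coeff y n)
          have h2 : ‖coeff x n + coeff y n‖ ^ 2 ≤ (‖coeff x n‖ + ‖coeff y n‖) ^ 2 :=
            pow_le_pow_left₀ (norm_nonneg _) h1 2
          nlinarith [sq_nonneg (‖coeff x n‖ - ‖coeff y n‖)]
      _ = 2 * ∑ n ∈ F, ‖coeff x n‖ ^ 2 + 2 * ∑ n ∈ F, ‖coeff y n‖ ^ 2 := by
          rw [Finset.sum_add_distrib, Finset.mul_sum, Finset.mul_sum]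
      _ ≤ _ := by linarith [hP F, hQ F]
  | smul a x _ hx =>
    obtain ⟨P, hP⟩ := hx
    refine ⟨‖a‖ ^ 2 * P, fun F => ?_⟩
    calc ∑ n ∈ F, ‖coeff (a • x) n‖ ^ 2 = ‖a‖ ^ 2 * ∑ n ∈ F, ‖coeff x n‖ ^ 2 := by
          rw [Finset.mul_sum]
          refine Finset.sum_congr rfl (fun n _ => ?_)
          rw [coeff_smul, norm_mul, mul_pow]
      _ ≤ _ := mul_le_mul_of_nonneg_left (hP F) (by positivity)

lemma sq_sum (f : L1) (δ : ℝ) (hδ : 0 < δ) : ∃ P : ℝ, ∀ F : Finset ℤ,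
    ∑ n ∈ F, ‖coeff f n‖ ^ 2 ≤ P + F.card * (2 * δ ^ 2) := by
  have hf : f ∈ (Submodule.span ℂ
      (Set.range (fun n : ℤ => (fourierLp 1 n : L1)))).topologicalClosure := by
    have h1 := span_fourierLp_closure_eq_top (T := 2 * Real.pi) (p := 1) (by norm_num)
    rw [show (fun n : ℤ => (fourierLp 1 n : L1)) = @fourierLp (2 * Real.pi) _ 1 _ from rfl, h1]
    trivial
  have hf2 : f ∈ closure ((Submodule.span ℂ
      (Set.range (fun n : ℤ => (fourierLp 1 n : L1))) : Submodule ℂ L1) : Set L1) := hf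
  rw [Metric.mem_closure_iff] at hf2
  obtain ⟨p, hp, hpf⟩ := hf2 δ hδ
  obtain ⟨P, hP⟩ := span_bdd p hp
  refine ⟨2 * P, fun F => ?_⟩
  rw [dist_eq_norm] at hpf
  calc ∑ n ∈ F, ‖coeff f n‖ ^ 2 ≤ ∑ n ∈ F, (2 * ‖coeff p n‖ ^ 2 + 2 * δ ^ 2) := by
        refine Finset.sum_le_sum (fun n _ => ?_)
        have h0 : coeff f n = coeff p n + coeff (f - p) n := by
          rw [coeff_sub]; ring
        have h1 := norm_add_le (coeff p n) (coeff (f - p) n)
        have h3 : ‖coeff (f - p) n‖ ≤ δ := (norm_coeff_le _ _).trans hpf.le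
        have h2 : ‖coeff f n‖ ^ 2 ≤ (‖coeff p n‖ + δ) ^ 2 := by
          apply pow_le_pow_left₀ (norm_nonneg _)
          rw [h0]
          linarith
        nlinarith [sq_nonneg (‖coeff p n‖ - δ)]
    _ = 2 * ∑ n ∈ F, ‖coeff p n‖ ^ 2 + F.card * (2 * δ ^ 2) := by
        rw [Finset.sum_add_distrib, Finset.mul_sum, Finset.sum_const, nsmul_eq_mul]
    _ ≤ _ := by linarith [hP F]

lemma norm_Gc_le (N : ℕ) (n : ℤ) : ‖Gc N n‖ ≤ 1 / ((N : ℝ) + 1) := by
  unfold Gc lam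
  rw [← sub_div, norm_div]
  have h1 : ‖((N : ℂ) + 1)‖ = (N : ℝ) + 1 := by
    have : ((N : ℂ) + 1) = (((N : ℝ) + 1 : ℝ) : ℂ) := by push_cast; ring
    rw [this, Complex.norm_real, Real.norm_of_nonneg (by positivity)]
  rw [h1]
  apply div_le_div_of_nonneg_right _ (by positivity)
  rw [← Int.cast_sub, Complex.norm_intCast]
  have h2 : |max 0 ((N : ℤ) + 1 - |n|) - max 0 ((N : ℤ) + 1 - |n + 1|)| ≤ 1 := by
    rcases abs_cases n with ⟨h3, h4⟩ | ⟨h3, h4⟩ <;>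
    rcases abs_cases (n + 1) with ⟨h5, h6⟩ | ⟨h5, h6⟩ <;>
    rw [h3, h5, abs_le] <;> constructor <;> omega
  exact_mod_cast h2

lemma sd_cont : Continuous sd := by
  unfold sd
  exact (continuous_const.sub (fourier 1).continuous).norm

lemma sd_nonneg (x : Circ) : 0 ≤ sd x := norm_nonneg _

lemma layer (s : ℝ) (N : ℕ) (hs : 1 / ((N : ℝ) + 1) ≤ s) :
    1 / s ^ 2 ≤ ∑ M ∈ Finset.range (N + 1), (2 * (M : ℝ) + 1) *
      (if (M : ℝ) * s < 1 then (1 : ℝ) else 0) := by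
  have hN : (0 : ℝ) < (N : ℝ) + 1 := by positivity
  have hs0 : 0 < s := lt_of_lt_of_le (by positivity) hs
  set k := ⌈1 / s⌉₊ with hk
  have hkN : k ≤ N + 1 := by
    rw [hk, Nat.ceil_le]
    push_cast
    rw [div_le_iff₀ hs0]
    rw [div_le_iff₀ hN] at hs
    linarith
  have h1 : 1 / s ≤ (k : ℝ) := Nat.le_ceil _
  have hsum : ∀ j : ℕ, ∑ M ∈ Finset.range j, (2 * (M : ℝ) + 1) = (j : ℝ) ^ 2 := by
    intro j
    induction j with
    | zero => simp
    | succ j ih => rw [Finset.sum_range_succ, ih]; push_cast; ring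
  calc 1 / s ^ 2 = (1 / s) ^ 2 := by rw [div_pow, one_pow]
    _ ≤ (k : ℝ) ^ 2 := pow_le_pow_left₀ (by positivity) h1 2
    _ = ∑ M ∈ Finset.range k, (2 * (M : ℝ) + 1) := (hsum k).symm
    _ = ∑ M ∈ Finset.range k, (2 * (M : ℝ) + 1) *
          (if (M : ℝ) * s < 1 then (1 : ℝ) else 0) := by
        refine Finset.sum_congr rfl (fun M hM => ?_)
        rw [Finset.mem_range, hk, Nat.lt_ceil, lt_div_iff₀ hs0] at hM
        rw [if_pos hM, mul_one]
    _ ≤ _ := by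
        apply Finset.sum_le_sum_of_subset_of_nonneg
        · intro M hM
          rw [Finset.mem_range] at hM ⊢
          omega
        · intro M _ _
          split_ifs <;> positivity

lemma key (h : S_MEAS) (f : L1) (N : ℕ) (τ : ℝ) (hτ : 0 < τ) :
    ∫ x in {x | 1 / ((N : ℝ) + 1) ≤ sd x}, ‖uN f N x‖ / sd x ∂mu ≤
      (1 / 2) * (τ * ∑ n ∈ Finset.Icc (-(N : ℤ) - 1) N, ‖Gc N n * coeff f n‖ ^ 2 +
        τ⁻¹ * (3 * ((N : ℝ) + 1))) := by
  have hD : MeasurableSet {x | 1 / ((N : ℝ) + 1) ≤ sd x} :=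
    (isClosed_le continuous_const sd_cont).measurableSet
  have hE : ∀ M : ℕ, MeasurableSet {x | (M : ℝ) * sd x < 1} := fun M =>
    (isOpen_lt (continuous_const.mul sd_cont) continuous_const).measurableSet
  set g : Circ → ℝ := fun x => (1 / 2) * (τ * ‖uN f N x‖ ^ 2 +
    τ⁻¹ * ∑ M ∈ Finset.range (N + 1), (2 * (M : ℝ) + 1) *
      ({x | (M : ℝ) * sd x < 1}.indicator (1 : Circ → ℝ) x)) with hg
  have hi1 : Integrable (fun x => ‖uN f N x‖ ^ 2) mu :=
    integrable_of_cont _ ((uN f N).continuous.norm.pow 2)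
  have hi2 : ∀ M : ℕ, Integrable (fun x => (2 * (M : ℝ) + 1) *
      ({x | (M : ℝ) * sd x < 1}.indicator (1 : Circ → ℝ) x)) mu := fun M =>
    ((integrable_const (1 : ℝ)).indicator (hE M)).const_mul _
  have hi3 : Integrable (fun x => ∑ M ∈ Finset.range (N + 1), (2 * (M : ℝ) + 1) *
      ({x | (M : ℝ) * sd x < 1}.indicator (1 : Circ → ℝ) x)) mu :=
    integrable_finsetSum _ (fun M _ => hi2 M)
  have hgi : Integrable g mu := ((hi1.const_mul τ).add (hi3.const_mul τ⁻¹)).const_mul _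
  have hind : ∀ (M : ℕ) (x : Circ), 0 ≤ ({x | (M : ℝ) * sd x < 1}.indicator (1 : Circ → ℝ) x) :=
    fun M x => Set.indicator_nonneg (fun _ _ => zero_le_one) x
  have hg0 : ∀ x, 0 ≤ g x := by
    intro x
    have h1 : 0 ≤ ∑ M ∈ Finset.range (N + 1), (2 * (M : ℝ) + 1) *
        ({x | (M : ℝ) * sd x < 1}.indicator (1 : Circ → ℝ) x) :=
      Finset.sum_nonneg (fun M _ => mul_nonneg (by positivity) (hind M x))
    rw [hg]
    positivity
  have hpt : ∀ x ∈ {x | 1 / ((N : ℝ) + 1) ≤ sd x}, ‖uN f N x‖ / sd x ≤ g x := by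
    intro x hx
    have hx' : 1 / ((N : ℝ) + 1) ≤ sd x := hx
    have hs0 : 0 < sd x := lt_of_lt_of_le (by positivity) hx'
    have h1 := layer (sd x) N hx'
    have h2 : ∑ M ∈ Finset.range (N + 1), (2 * (M : ℝ) + 1) *
        (if (M : ℝ) * sd x < 1 then (1 : ℝ) else 0) =
        ∑ M ∈ Finset.range (N + 1), (2 * (M : ℝ) + 1) *
        ({x | (M : ℝ) * sd x < 1}.indicator (1 : Circ → ℝ) x) := by
      refine Finset.sum_congr rfl (fun M _ => ?_)
      rw [Set.indicator_apply]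
      rfl
    rw [h2] at h1
    have h3 : ‖uN f N x‖ / sd x ≤ (1 / 2) * (τ * ‖uN f N x‖ ^ 2 + τ⁻¹ * (1 / sd x ^ 2)) := by
      have h4 : (1 / 2) * (τ * ‖uN f N x‖ ^ 2 + τ⁻¹ * (1 / sd x ^ 2)) - ‖uN f N x‖ / sd x =
          (1 / 2) * τ⁻¹ * (τ * ‖uN f N x‖ - 1 / sd x) ^ 2 := by
        field_simp
        ring
      have h5 : 0 ≤ (1 / 2) * τ⁻¹ * (τ * ‖uN f N x‖ - 1 / sd x) ^ 2 := by positivity
      linarith
    refine h3.trans ?_
    rw [hg]
    have h6 := mul_le_mul_of_nonneg_left h1 (inv_nonneg.2 hτ.le)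
    simp only
    linarith
  have hM : ∀ M : ℕ, (2 * (M : ℝ) + 1) * mu.real {x | (M : ℝ) * sd x < 1} ≤ 3 := by
    intro M
    rcases Nat.eq_zero_or_pos M with hM | hM
    · have h1 : mu.real {x | (M : ℝ) * sd x < 1} ≤ 1 := measureReal_le_one
      rw [hM] at h1 ⊢
      push_cast at h1 ⊢
      linarith
    · have hM' : (1 : ℝ) ≤ M := by exact_mod_cast hM
      have h1 : {x | (M : ℝ) * sd x < 1} = {x | sd x < 1 / (M : ℝ)} := by
        ext x
        rw [Set.mem_ofPred_eq, Set.mem_ofPred_eq, lt_div_iff₀ (by linarith), mul_comm]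
      have h2 := h (1 / (M : ℝ)) (by positivity)
      rw [h1]
      calc (2 * (M : ℝ) + 1) * mu.real {x | sd x < 1 / (M : ℝ)} ≤ (2 * (M : ℝ) + 1) * (1 / M) :=
            mul_le_mul_of_nonneg_left h2 (by positivity)
        _ ≤ 3 := by
            rw [mul_one_div, div_le_iff₀ (by linarith)]
            linarith
  calc ∫ x in {x | 1 / ((N : ℝ) + 1) ≤ sd x}, ‖uN f N x‖ / sd x ∂mu
      ≤ ∫ x in {x | 1 / ((N : ℝ) + 1) ≤ sd x}, g x ∂mu := by
        apply integral_mono_of_nonneg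
        · exact ae_of_all _ (fun x => div_nonneg (norm_nonneg _) (sd_nonneg x))
        · exact hgi.integrableOn
        · exact ae_restrict_of_forall_mem hD hpt
    _ ≤ ∫ x, g x ∂mu := setIntegral_le_integral hgi (ae_of_all _ hg0)
    _ = (1 / 2) * (τ * ∑ n ∈ Finset.Icc (-(N : ℤ) - 1) N, ‖Gc N n * coeff f n‖ ^ 2 +
        τ⁻¹ * ∑ M ∈ Finset.range (N + 1), (2 * (M : ℝ) + 1) *
          mu.real {x | (M : ℝ) * sd x < 1}) := by
        rw [hg, integral_const_mul, integral_add (hi1.const_mul τ) (hi3.const_mul τ⁻¹),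
          integral_const_mul, integral_const_mul, integral_finsetSum _ (fun M _ => hi2 M)]
        congr 3
        · exact parseval_poly _ _
        · refine Finset.sum_congr rfl (fun M _ => ?_)
          rw [integral_const_mul, integral_indicator_one (hE M)]
    _ ≤ _ := by
        have h1 : ∑ M ∈ Finset.range (N + 1), (2 * (M : ℝ) + 1) *
            mu.real {x | (M : ℝ) * sd x < 1} ≤ 3 * ((N : ℝ) + 1) := by
          calc _ ≤ ∑ M ∈ Finset.range (N + 1), (3 : ℝ) := Finset.sum_le_sum (fun M _ => hM M)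
            _ = _ := by
              rw [Finset.sum_const, Finset.card_range, nsmul_eq_mul]
              push_cast
              ring
        have h2 := mul_le_mul_of_nonneg_left h1 (inv_nonneg.2 hτ.le)
        linarith

theorem main (h : S_MEAS) : S_UN := by
  intro f
  rw [Metric.tendsto_atTop]
  intro ε hε
  obtain ⟨δ, hδ⟩ : ∃ δ : ℝ, δ = ε / 8 := ⟨_, rfl⟩
  have hδ0 : 0 < δ := by rw [hδ]; positivity
  obtain ⟨P, hP⟩ := sq_sum f δ hδ0
  have hP0 : 0 ≤ P := by simpa using hP ∅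
  obtain ⟨N₀, hN₀⟩ := exists_nat_gt (P / δ ^ 2)
  refine ⟨N₀, fun N hN => ?_⟩
  have hnn : 0 ≤ ∫ x in {x | 1 / ((N : ℝ) + 1) ≤ sd x}, ‖uN f N x‖ / sd x ∂mu :=
    integral_nonneg (fun x => div_nonneg (norm_nonneg _) (sd_nonneg x))
  rw [Real.dist_eq, sub_zero, abs_of_nonneg hnn]
  have hN1 : (0 : ℝ) < (N : ℝ) + 1 := by positivity
  have hk := key h f N (((N : ℝ) + 1) / δ) (by positivity)
  refine hk.trans_lt ?_
  have hQ : ∑ n ∈ Finset.Icc (-(N : ℤ) - 1) N, ‖Gc N n * coeff f n‖ ^ 2 ≤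
      (1 / ((N : ℝ) + 1)) ^ 2 * (P + 4 * ((N : ℝ) + 1) * δ ^ 2) := by
    calc ∑ n ∈ Finset.Icc (-(N : ℤ) - 1) N, ‖Gc N n * coeff f n‖ ^ 2
        ≤ ∑ n ∈ Finset.Icc (-(N : ℤ) - 1) N, (1 / ((N : ℝ) + 1)) ^ 2 * ‖coeff f n‖ ^ 2 := by
          refine Finset.sum_le_sum (fun n _ => ?_)
          rw [norm_mul, mul_pow]
          exact mul_le_mul_of_nonneg_right
            (pow_le_pow_left₀ (norm_nonneg _) (norm_Gc_le N n) 2) (by positivity)
      _ = (1 / ((N : ℝ) + 1)) ^ 2 * ∑ n ∈ Finset.Icc (-(N : ℤ) - 1) N, ‖coeff f n‖ ^ 2 := by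
          rw [Finset.mul_sum]
      _ ≤ _ := by
          apply mul_le_mul_of_nonneg_left _ (by positivity)
          have h1 := hP (Finset.Icc (-(N : ℤ) - 1) N)
          have h2 : ((Finset.Icc (-(N : ℤ) - 1) (N : ℤ)).card : ℝ) = 2 * ((N : ℝ) + 1) := by
            rw [Int.card_Icc]
            have h3 : ((N : ℤ) + 1 - (-(N : ℤ) - 1)).toNat = 2 * (N + 1) := by omega
            rw [h3]
            push_cast
            ring
          rw [h2] at h1
          linarith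
  have hNP : P / δ ^ 2 < (N : ℝ) + 1 := by
    have : (N₀ : ℝ) ≤ N := by exact_mod_cast hN
    linarith
  have hNP2 : P < ((N : ℝ) + 1) * δ ^ 2 := by
    rwa [div_lt_iff₀ (by positivity)] at hNP
  have h5 : ((N : ℝ) + 1) / δ * ∑ n ∈ Finset.Icc (-(N : ℤ) - 1) N, ‖Gc N n * coeff f n‖ ^ 2 ≤
      ((N : ℝ) + 1) / δ * ((1 / ((N : ℝ) + 1)) ^ 2 * (P + 4 * ((N : ℝ) + 1) * δ ^ 2)) :=
    mul_le_mul_of_nonneg_left hQ (by positivity)
  have h6 : ((N : ℝ) + 1) / δ * ((1 / ((N : ℝ) + 1)) ^ 2 * (P + 4 * ((N : ℝ) + 1) * δ ^ 2)) ≤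
      5 * δ := by
    have h7 : ((N : ℝ) + 1) / δ * ((1 / ((N : ℝ) + 1)) ^ 2 * (P + 4 * ((N : ℝ) + 1) * δ ^ 2)) =
        (P + 4 * ((N : ℝ) + 1) * δ ^ 2) / (((N : ℝ) + 1) * δ) := by
      field_simp
    rw [h7, div_le_iff₀ (by positivity)]
    nlinarith
  have h8 : (((N : ℝ) + 1) / δ)⁻¹ * (3 * ((N : ℝ) + 1)) = 3 * δ := by
    field_simp
  rw [h8]
  have h9 : ε = 8 * δ := by rw [hδ]; ring
  rw [h9]
  linarith

end

end Pool.Agent.W212.SYN.UN
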